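import Pool.Agent.Helper884.IC.Compl

/-!
# Supercharacter theories of finite groups
-/

open scoped BigOperators Classical
open Representation Pool.Agent.Helper884.IC

noncomputable section

namespace Pool.Agent.X256.SC

/-- `P` is a partition of the set `s` into nonempty finite blocks -/
def IsPart {α : Type} (P : Finset (Finset α)) (s : Set α) : Prop :=
  (∀ S ∈ P, S.Nonempty ∧ ∀ x ∈ S, x ∈ s) ∧ ∀ x ∈ s, ∃! S, S ∈ P ∧ x ∈ S

/-- a supercharacter theory (Diaconis-Isaacs) of a finite group: a partition `X` of the set of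
irreducible characters and a partition `K` of the group, with the same number of blocks, such that
`{1}` is a block of `K` and each `∑_{ψ ∈ S} ψ(1) ψ` (`S` a block of `X`) is constant on the blocks
of `K` -/
structure SCT (G : Type) [Group G] where
  X : Finset (Finset (G → ℂ))
  K : Finset (Finset G)
  isPart_X : IsPart X {chi | IsIrrChar chi}
  isPart_K : IsPart K Set.univ
  card_eq : X.card = K.card
  one_mem : ({1} : Finset G) ∈ K
  const : ∀ S ∈ X, ∀ C ∈ K, ∀ g ∈ C, ∀ h ∈ C,
    ∑ psi ∈ S, psi 1 * psi g = ∑ psi ∈ S, psi 1 * psi h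

lemma isPart_of_fin {α : Type} [DecidableEq α] {s : Finset α} (P : Finpartition s) {t : Set α}
    (h : ∀ x, x ∈ s ↔ x ∈ t) : IsPart P.parts t := by
  constructor
  · intro S hS
    exact ⟨P.nonempty_of_mem_parts hS, fun x hx => (h x).mp (P.le hS hx)⟩
  · intro x hx
    obtain ⟨S, h1, h2⟩ := P.existsUnique_mem ((h x).mpr hx)
    exact ⟨S, h1, h2⟩

end Pool.Agent.X256.SC
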