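import Pool.Agent.X256.SC.Conv
import Pool.Agent.X256.SC.Defs

/-!
# The supercharacter theory attached to two-sided orbits (abstract version)
-/

open scoped BigOperators Classical
open Representation Pool.Agent.Helper884.IC Pool.Agent.X256.CT

noncomputable section

namespace Pool.Agent.X256.SC

/-- abstract algebra groups -/
structure AG (F J G : Type) [Field F] [AddCommGroup J] [Module F J] [Group G] where
  s : G ≃ J
  T : G → G → J →ₗ[F] J
  T_mul : ∀ u v u' v' y, T u v (T u' v' y) = T (u * u') (v' * v) y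
  T_one : ∀ y, T 1 1 y = y
  s_div : ∀ g h, s (g * h⁻¹) = T 1 h⁻¹ (s g - s h)
  s_conj : ∀ u g, s (u * g * u⁻¹) = T u u⁻¹ (s g)

namespace AG

variable {F J G : Type} [Field F] [Fintype F] [AddCommGroup J] [Module F J] [Fintype J] [Group G]
  [Fintype G] (A : AG F J G)

instance : Fintype (Module.Dual F J) :=
  Fintype.ofInjective (fun (m : Module.Dual F J) => (m : J → F)) DFunLike.coe_injective

/-- two-sided orbit of a functional -/
def orb (m : Module.Dual F J) : Finset (Module.Dual F J) :=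
  Finset.univ.filter (fun k => ∃ u v : G, k = m ∘ₗ A.T u v)

lemma mem_orb {m k : Module.Dual F J} : k ∈ A.orb m ↔ ∃ u v : G, k = m ∘ₗ A.T u v := by
  simp [orb]

lemma T_comp (m : Module.Dual F J) (u v u' v' : G) :
    (m ∘ₗ A.T u v) ∘ₗ A.T u' v' = m ∘ₗ A.T (u * u') (v' * v) := by
  ext y
  simp [A.T_mul]

lemma comp_T_one (m : Module.Dual F J) : m ∘ₗ A.T 1 1 = m := by
  ext y
  simp [A.T_one]

lemma self_mem_orb (m : Module.Dual F J) : m ∈ A.orb m :=
  A.mem_orb.mpr ⟨1, 1, (A.comp_T_one m).symm⟩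

lemma orb_symm {m k : Module.Dual F J} (h : k ∈ A.orb m) : m ∈ A.orb k := by
  obtain ⟨u, v, rfl⟩ := A.mem_orb.mp h
  refine A.mem_orb.mpr ⟨u⁻¹, v⁻¹, ?_⟩
  rw [A.T_comp]
  simp [A.comp_T_one]

lemma orb_trans {m k l : Module.Dual F J} (h : k ∈ A.orb m) (h' : l ∈ A.orb k) : l ∈ A.orb m := by
  obtain ⟨u, v, rfl⟩ := A.mem_orb.mp h
  obtain ⟨u', v', rfl⟩ := A.mem_orb.mp h'
  exact A.mem_orb.mpr ⟨_, _, A.T_comp _ _ _ _ _⟩

lemma orb_eq {m k : Module.Dual F J} (h : k ∈ A.orb m) : A.orb k = A.orb m := by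
  ext l
  exact ⟨fun h' => A.orb_trans h h', fun h' => A.orb_trans (A.orb_symm h) h'⟩

/-- translating the orbit -/
lemma sum_orb (m : Module.Dual F J) (u v : G) (H : Module.Dual F J → ℂ) :
    ∑ k ∈ A.orb m, H (k ∘ₗ A.T u v) = ∑ k ∈ A.orb m, H k := by
  refine Finset.sum_bij' (fun k _ => k ∘ₗ A.T u v) (fun k _ => k ∘ₗ A.T u⁻¹ v⁻¹) ?_ ?_ ?_ ?_ ?_
  · intro k hk
    exact A.orb_trans hk (A.mem_orb.mpr ⟨u, v, rfl⟩)
  · intro k hk
    exact A.orb_trans hk (A.mem_orb.mpr ⟨u⁻¹, v⁻¹, rfl⟩)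
  · intro k _
    rw [A.T_comp]
    simp [A.comp_T_one]
  · intro k _
    rw [A.T_comp]
    simp [A.comp_T_one]
  · intro k _
    rfl

variable (θ : AddChar F ℂ)

/-- the orbit sum attached to a functional -/
def orbSum (m : Module.Dual F J) (g : G) : ℂ := ∑ k ∈ A.orb m, θ (k (A.s g))

/-- Fourier coefficients -/
def four (k : Module.Dual F J) (psi : G → ℂ) : ℂ := ∑ g : G, psi g * θ (-(k (A.s g)))

lemma conv_orbSum (m : Module.Dual F J) (psi : G → ℂ) (g : G) :
    ∑ x : G, A.orbSum θ m x * psi (x⁻¹ * g) =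
      ∑ k ∈ A.orb m, θ (k (A.s g)) * A.four θ k psi := by
  have h1 : ∑ x : G, A.orbSum θ m x * psi (x⁻¹ * g) =
      ∑ y : G, A.orbSum θ m (g * y⁻¹) * psi y := by
    refine Fintype.sum_equiv ((Equiv.inv G).trans (Equiv.mulRight g)) _ _ fun x => ?_
    simp
  rw [h1]
  have h2 : ∀ y : G, A.orbSum θ m (g * y⁻¹) = ∑ k ∈ A.orb m, θ (k (A.s g)) * θ (-(k (A.s y))) := by
    intro y
    unfold orbSum
    simp only [A.s_div]
    have := A.sum_orb m 1 y⁻¹ (fun k => θ (k (A.s g - A.s y)))
    simp only [LinearMap.comp_apply] at this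
    rw [this]
    refine Finset.sum_congr rfl fun k _ => ?_
    rw [map_sub, sub_eq_add_neg, AddChar.map_add_eq_mul]
  simp only [h2, Finset.sum_mul]
  rw [Finset.sum_comm]
  refine Finset.sum_congr rfl fun k _ => ?_
  unfold four
  rw [Finset.mul_sum]
  refine Finset.sum_congr rfl fun y _ => ?_
  ring

variable (hθ : θ ≠ 1)

include hθ in
lemma exists_theta_ne : ∃ a : F, θ a ≠ 1 := by
  exact AddChar.ne_one_iff.mp hθ

include hθ in
lemma sum_char_J (k : Module.Dual F J) :
    ∑ y : J, θ (k y) = if k = 0 then (Fintype.card J : ℂ) else 0 := by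
  have h1 := AddChar.sum_eq_ite (θ.compAddMonoidHom k.toAddMonoidHom)
  have h2 : (θ.compAddMonoidHom k.toAddMonoidHom = 0) ↔ k = 0 := by
    constructor
    · intro h
      by_contra hk
      obtain ⟨y, hy⟩ : ∃ y, k y ≠ 0 := by
        by_contra hn
        push Not at hn
        exact hk (LinearMap.ext hn)
      obtain ⟨a, ha⟩ := exists_theta_ne θ hθ
      apply ha
      have h3 := DFunLike.congr_fun h ((a * (k y)⁻¹) • y)
      simp only [AddChar.compAddMonoidHom_apply, AddChar.zero_apply] at h3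
      have h4 : k.toAddMonoidHom ((a * (k y)⁻¹) • y) = a := by
        change k ((a * (k y)⁻¹) • y) = a
        rw [map_smul, smul_eq_mul, mul_assoc, inv_mul_cancel₀ hy, mul_one]
      rwa [h4] at h3
    · intro h
      subst h
      ext y
      simp [AddChar.compAddMonoidHom_apply]
  have h3 : ∑ y : J, θ (k y) = ∑ y : J, (θ.compAddMonoidHom k.toAddMonoidHom) y := rfl
  rw [h3, h1]
  by_cases hk : k = 0
  · rw [if_pos (h2.mpr hk), if_pos hk]
  · rw [if_neg (fun h => hk (h2.mp h)), if_neg hk]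

include hθ in
lemma sum_char_D (y : J) :
    ∑ k : Module.Dual F J, θ (k y) =
      if y = 0 then (Fintype.card (Module.Dual F J) : ℂ) else 0 := by
  let ev : Module.Dual F J →+ F :=
    { toFun := fun k => k y
      map_zero' := rfl
      map_add' := fun _ _ => rfl }
  have h1 := AddChar.sum_eq_ite (θ.compAddMonoidHom ev)
  have h2 : (θ.compAddMonoidHom ev = 0) ↔ y = 0 := by
    constructor
    · intro h
      by_contra hy
      obtain ⟨k, hk⟩ : ∃ k : Module.Dual F J, k y ≠ 0 := by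
        by_contra hn
        push Not at hn
        exact hy ((Module.forall_dual_apply_eq_zero_iff F y).mp hn)
      obtain ⟨a, ha⟩ := exists_theta_ne θ hθ
      apply ha
      have h3 := DFunLike.congr_fun h ((a * (k y)⁻¹) • k)
      simp only [AddChar.compAddMonoidHom_apply, AddChar.zero_apply] at h3
      have h4 : ev ((a * (k y)⁻¹) • k) = a := by
        change (a * (k y)⁻¹) • (k y) = a
        rw [smul_eq_mul, mul_assoc, inv_mul_cancel₀ hk, mul_one]
      rwa [h4] at h3
    · intro h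
      subst h
      ext k
      simp [AddChar.compAddMonoidHom_apply, ev]
  have h3 : ∑ k : Module.Dual F J, θ (k y) = ∑ k, (θ.compAddMonoidHom ev) k := rfl
  rw [h3, h1]
  by_cases hk : y = 0
  · rw [if_pos (h2.mpr hk), if_pos hk]
  · rw [if_neg (fun h => hk (h2.mp h)), if_neg hk]

include hθ in
/-- Fourier coefficients of the `θ ∘ k` -/
lemma sum_theta (k l : Module.Dual F J) :
    ∑ g : G, θ (k (A.s g)) * θ (-(l (A.s g))) = if k = l then (Fintype.card G : ℂ) else 0 := by
  have h1 : ∑ g : G, θ (k (A.s g)) * θ (-(l (A.s g))) = ∑ y : J, θ ((k - l) y) := by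
    refine Fintype.sum_equiv A.s _ _ fun g => ?_
    rw [← AddChar.map_add_eq_mul, LinearMap.sub_apply, sub_eq_add_neg]
  rw [h1, sum_char_J θ hθ, Fintype.card_congr A.s]
  simp only [sub_eq_zero]

include hθ in
/-- some Fourier coefficient of a nonzero function is nonzero -/
lemma exists_four_ne {psi : G → ℂ} (h : ∃ g, psi g ≠ 0) :
    ∃ k : Module.Dual F J, A.four θ k psi ≠ 0 := by
  by_contra hn
  push Not at hn
  obtain ⟨h0, hh0⟩ := h
  apply hh0
  have h1 : ∑ k : Module.Dual F J, θ (k (A.s h0)) * A.four θ k psi =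
      (Fintype.card (Module.Dual F J) : ℂ) * psi h0 := by
    unfold four
    simp only [Finset.mul_sum]
    rw [Finset.sum_comm]
    have h2 : ∀ g : G, ∑ k : Module.Dual F J, θ (k (A.s h0)) * (psi g * θ (-(k (A.s g)))) =
        if g = h0 then (Fintype.card (Module.Dual F J) : ℂ) * psi g else 0 := by
      intro g
      have h3 : ∀ k : Module.Dual F J, θ (k (A.s h0)) * (psi g * θ (-(k (A.s g)))) =
          psi g * θ (k (A.s h0 - A.s g)) := by
        intro k
        rw [map_sub, sub_eq_add_neg (k (A.s h0)), AddChar.map_add_eq_mul]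
        ring
      rw [Finset.sum_congr rfl fun k _ => h3 k, ← Finset.mul_sum, sum_char_D θ hθ]
      by_cases hg : g = h0
      · subst hg
        simp [mul_comm]
      · rw [if_neg hg, if_neg, mul_zero]
        rw [sub_eq_zero]
        intro h
        exact hg (A.s.injective h).symm
    rw [Finset.sum_congr rfl fun g _ => h2 g]
    simp
  have h2 : ∑ k : Module.Dual F J, θ (k (A.s h0)) * A.four θ k psi = 0 :=
    Finset.sum_eq_zero fun k _ => by rw [hn k, mul_zero]
  rw [h2] at h1
  rcases mul_eq_zero.mp h1.symm with h3 | h3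
  · exfalso
    have : Fintype.card (Module.Dual F J) ≠ 0 := Fintype.card_ne_zero
    exact this (by exact_mod_cast h3)
  · exact h3

/-- orbit sums are class functions -/
lemma orbSum_super (m : Module.Dual F J) {g h : G} (hgh : ∃ u v : G, A.s h = A.T u v (A.s g)) :
    A.orbSum θ m h = A.orbSum θ m g := by
  obtain ⟨u, v, h1⟩ := hgh
  unfold orbSum
  rw [h1]
  exact A.sum_orb m u v (fun k => θ (k (A.s g)))

lemma orbSum_class (m : Module.Dual F J) : IsClass (A.orbSum θ m) := by
  intro g y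
  exact A.orbSum_super θ m ⟨y, y⁻¹, A.s_conj y g⟩

include hθ in
/-- the basic identity -/
lemma key (m k : Module.Dual F J) {psi : G → ℂ} (hpsi : IsIrrChar psi) :
    (if k ∈ A.orb m then psi 1 * A.four θ k psi else 0) =
      B (A.orbSum θ m) psi * A.four θ k psi := by
  have h1 : ∀ g : G, (∑ l ∈ A.orb m, θ (l (A.s g)) * A.four θ l psi) * psi 1 =
      (Nat.card G : ℂ) * B (A.orbSum θ m) psi * psi g := by
    intro g
    rw [← A.conv_orbSum θ m psi g]
    exact conv_irr (A.orbSum θ m) (A.orbSum_class θ m) hpsi g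
  have h2 : ∑ g : G, ((∑ l ∈ A.orb m, θ (l (A.s g)) * A.four θ l psi) * psi 1) *
      θ (-(k (A.s g))) = ∑ g : G, ((Nat.card G : ℂ) * B (A.orbSum θ m) psi * psi g) *
      θ (-(k (A.s g))) := Finset.sum_congr rfl fun g _ => by rw [h1 g]
  have h3 : ∑ g : G, ((Nat.card G : ℂ) * B (A.orbSum θ m) psi * psi g) *
      θ (-(k (A.s g))) = (Nat.card G : ℂ) * B (A.orbSum θ m) psi * A.four θ k psi := by
    unfold four
    rw [Finset.mul_sum]
    exact Finset.sum_congr rfl fun g _ => by ring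
  have h4 : ∑ g : G, ((∑ l ∈ A.orb m, θ (l (A.s g)) * A.four θ l psi) * psi 1) *
      θ (-(k (A.s g))) = (Nat.card G : ℂ) * (if k ∈ A.orb m then psi 1 * A.four θ k psi else 0) := by
    have h5 : ∀ g : G, ((∑ l ∈ A.orb m, θ (l (A.s g)) * A.four θ l psi) * psi 1) *
      θ (-(k (A.s g))) = ∑ l ∈ A.orb m, (psi 1 * A.four θ l psi) *
        (θ (l (A.s g)) * θ (-(k (A.s g)))) := by
      intro g
      rw [Finset.sum_mul, Finset.sum_mul]
      exact Finset.sum_congr rfl fun l _ => by ring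
    rw [Finset.sum_congr rfl fun g _ => h5 g, Finset.sum_comm]
    have h6 : ∀ l ∈ A.orb m, ∑ g : G, (psi 1 * A.four θ l psi) *
        (θ (l (A.s g)) * θ (-(k (A.s g)))) =
        if l = k then (psi 1 * A.four θ l psi) * (Fintype.card G : ℂ) else 0 := by
      intro l _
      rw [← Finset.mul_sum, A.sum_theta θ hθ]
      split_ifs <;> simp
    rw [Finset.sum_congr rfl h6, Finset.sum_ite_eq']
    rw [Nat.card_eq_fintype_card]
    split_ifs <;> ring
  rw [h4, h3, mul_assoc] at h2
  exact mul_left_cancel₀ cardG_ne h2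

end AG

end Pool.Agent.X256.SC
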