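import Pool.Agent.X256.SC.AG

/-!
# Blocks of irreducible characters, counting orbits, and the supercharacter theory
-/

open scoped BigOperators Classical
open Representation Pool.Agent.Helper884.IC Pool.Agent.X256.CT

noncomputable section

namespace Pool.Agent.X256.SC

namespace AG

variable {F J G : Type} [Field F] [Fintype F] [AddCommGroup J] [Module F J] [Fintype J] [Group G]
  [Fintype G] (A : AG F J G) (θ : AddChar F ℂ) (hθ : θ ≠ 1)

include hθ in
lemma B_orbSum (m k : Module.Dual F J) {psi : G → ℂ} (hpsi : IsIrrChar psi)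
    (hk : A.four θ k psi ≠ 0) :
    B (A.orbSum θ m) psi = if k ∈ A.orb m then psi 1 else 0 := by
  have h := A.key θ hθ m k hpsi
  by_cases h1 : k ∈ A.orb m
  · rw [if_pos h1] at h ⊢
    exact (mul_right_cancel₀ hk h).symm
  · rw [if_neg h1] at h ⊢
    rcases mul_eq_zero.mp h.symm with h2 | h2
    · exact h2
    · exact absurd h2 hk

/-- the block of irreducible characters attached to an orbit of functionals -/
def blk (m : Module.Dual F J) : Finset (G → ℂ) :=
  (Irr G).filter (fun psi => ∃ k ∈ A.orb m, A.four θ k psi ≠ 0)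

lemma mem_blk {m : Module.Dual F J} {psi : G → ℂ} :
    psi ∈ A.blk θ m ↔ IsIrrChar psi ∧ ∃ k ∈ A.orb m, A.four θ k psi ≠ 0 := by
  simp [blk, mem_Irr]

include hθ in
lemma B_orbSum_blk (m : Module.Dual F J) {psi : G → ℂ} (hpsi : IsIrrChar psi) :
    B (A.orbSum θ m) psi = if psi ∈ A.blk θ m then psi 1 else 0 := by
  by_cases h : psi ∈ A.blk θ m
  · rw [if_pos h]
    obtain ⟨_, k, hk1, hk2⟩ := (A.mem_blk θ).mp h
    rw [A.B_orbSum θ hθ m k hpsi hk2, if_pos hk1]
  · rw [if_neg h]
    obtain ⟨k, hk⟩ := A.exists_four_ne θ hθ ⟨1, Pool.Agent.Y63.AWC.one_ne hpsi⟩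
    rw [A.B_orbSum θ hθ m k hpsi hk, if_neg]
    intro h2
    exact h ((A.mem_blk θ).mpr ⟨hpsi, k, h2, hk⟩)

include hθ in
lemma sum_blk (m : Module.Dual F J) (g : G) :
    ∑ psi ∈ A.blk θ m, psi 1 * psi g = A.orbSum θ m g := by
  have h1 := congrFun (expand _ (A.orbSum_class θ m)) g
  rw [h1, Finset.sum_apply]
  simp only [Pi.smul_apply, smul_eq_mul]
  unfold blk
  rw [Finset.sum_filter]
  refine Finset.sum_congr rfl fun psi hpsi => ?_
  have hpsi' := mem_Irr.mp hpsi
  rw [A.B_orbSum_blk θ hθ m hpsi']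
  by_cases h : ∃ k ∈ A.orb m, A.four θ k psi ≠ 0
  · rw [if_pos h, if_pos ((A.mem_blk θ).mpr ⟨hpsi', h⟩)]
  · rw [if_neg h, if_neg (fun h' => h ((A.mem_blk θ).mp h').2), zero_mul]

lemma blk_eq_of_mem {m k : Module.Dual F J} (h : k ∈ A.orb m) : A.blk θ k = A.blk θ m := by
  unfold blk
  rw [A.orb_eq h]

include hθ in
lemma mem_orb_of_blk {m k : Module.Dual F J} {psi : G → ℂ} (h1 : psi ∈ A.blk θ m)
    (h2 : psi ∈ A.blk θ k) : k ∈ A.orb m := by
  obtain ⟨hpsi, l, hl, hl2⟩ := (A.mem_blk θ).mp h2
  have h3 := A.B_orbSum_blk θ hθ m hpsi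
  rw [if_pos h1, A.B_orbSum θ hθ m l hpsi hl2] at h3
  have h4 : l ∈ A.orb m := by
    by_contra h
    rw [if_neg h] at h3
    exact Pool.Agent.Y63.AWC.one_ne hpsi h3.symm
  exact A.orb_trans h4 (A.orb_symm hl)

lemma s_one : A.s 1 = 0 := by
  have := A.s_div 1 1
  simpa using this

lemma orbSum_one (m : Module.Dual F J) : A.orbSum θ m 1 = ((A.orb m).card : ℂ) := by
  unfold orbSum
  simp [A.s_one]

include hθ in
lemma blk_nonempty (m : Module.Dual F J) : (A.blk θ m).Nonempty := by
  by_contra h
  rw [Finset.not_nonempty_iff_eq_empty] at h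
  have h1 := A.sum_blk θ hθ m 1
  rw [h, Finset.sum_empty, A.orbSum_one] at h1
  have h2 : (A.orb m).card ≠ 0 := Finset.card_ne_zero_of_mem (A.self_mem_orb m)
  exact h2 (by exact_mod_cast h1.symm)

include hθ in
lemma blk_eq_iff (m k : Module.Dual F J) : A.blk θ m = A.blk θ k ↔ k ∈ A.orb m := by
  constructor
  · intro h
    obtain ⟨psi, hpsi⟩ := A.blk_nonempty θ hθ m
    exact A.mem_orb_of_blk θ hθ hpsi (h ▸ hpsi)
  · intro h
    exact (A.blk_eq_of_mem θ h).symm

/-- the partition of the irreducible characters -/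
def XP : Finpartition (Irr G) where
  parts := Finset.univ.image (A.blk θ)
  supIndep := by
    rw [Finset.supIndep_iff_pairwiseDisjoint]
    intro S hS S' hS' hne
    simp only [Finset.coe_image, Set.mem_image, Finset.mem_coe, Finset.mem_univ, true_and,
      Finset.coe_univ, Set.image_univ, Set.mem_range] at hS hS'
    obtain ⟨m, rfl⟩ := hS
    obtain ⟨k, rfl⟩ := hS'
    rw [Function.onFun, id, id, Finset.disjoint_left]
    intro psi h1 h2
    exact hne ((A.blk_eq_iff θ hθ m k).mpr (A.mem_orb_of_blk θ hθ h1 h2))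
  sup_parts := by
    ext psi
    simp only [Finset.mem_sup, Finset.mem_image, Finset.mem_univ, true_and, id]
    constructor
    · rintro ⟨S, ⟨m, rfl⟩, h⟩
      exact mem_Irr.mpr ((A.mem_blk θ).mp h).1
    · intro h
      have hpsi := mem_Irr.mp h
      obtain ⟨k, hk⟩ := A.exists_four_ne θ hθ ⟨1, Pool.Agent.Y63.AWC.one_ne hpsi⟩
      exact ⟨_, ⟨k, rfl⟩, (A.mem_blk θ).mpr ⟨hpsi, k, A.self_mem_orb k, hk⟩⟩
  bot_notMem := by
    simp only [Finset.mem_image, Finset.mem_univ, true_and, not_exists]
    intro m h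
    have := A.blk_nonempty θ hθ m
    rw [h] at this
    exact Finset.not_nonempty_empty this

/-- the superclass relation -/
def rel (g h : G) : Prop := ∃ u v : G, A.s h = A.T u v (A.s g)

/-- the superclass relation as a setoid -/
def relS : Setoid G where
  r := A.rel
  iseqv := {
    refl := fun g => ⟨1, 1, (A.T_one _).symm⟩
    symm := by
      rintro g h ⟨u, v, huv⟩
      refine ⟨u⁻¹, v⁻¹, ?_⟩
      rw [huv, A.T_mul]
      simp [A.T_one]
    trans := by
      rintro g h k ⟨u, v, huv⟩ ⟨u', v', huv'⟩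
      refine ⟨u' * u, v * v', ?_⟩
      rw [huv', huv, A.T_mul] }

/-- the partition of the group into superclasses -/
def KP : Finpartition (Finset.univ : Finset G) := Finpartition.ofSetoid A.relS

lemma KP_parts : A.KP.parts = Finset.univ.image (fun g => Finset.univ.filter (fun h => A.rel g h)) := by
  ext S
  simp only [KP, Finpartition.ofSetoid, Finpartition.ofSetSetoid, Finset.mem_image,
    Finset.mem_univ, true_and]
  constructor
  · rintro ⟨g, rfl⟩
    refine ⟨g, ?_⟩
    ext h
    simp only [Finset.mem_filter, Finset.mem_univ, true_and]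
    rfl
  · rintro ⟨g, rfl⟩
    refine ⟨g, ?_⟩
    ext h
    simp only [Finset.mem_filter, Finset.mem_univ, true_and]
    rfl

lemma card_image_eq {α β : Type} [Fintype α] [DecidableEq β] (r : Setoid α) (H : α → β)
    (h : ∀ a b, H a = H b ↔ r a b) :
    (Finset.univ.image H).card = Nat.card (Quotient r) := by
  have hinj : Function.Injective (Quotient.lift H (fun a b hab => (h a b).mpr hab)) := by
    intro a b
    induction a using Quotient.inductionOn
    induction b using Quotient.inductionOn
    intro hab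
    exact Quotient.sound ((h _ _).mp hab)
  have h1 : Finset.univ.image H = (Finset.univ : Finset (Quotient r)).image
      (Quotient.lift H (fun a b hab => (h a b).mpr hab)) := by
    ext x
    simp only [Finset.mem_image, Finset.mem_univ, true_and]
    constructor
    · rintro ⟨a, rfl⟩
      exact ⟨Quotient.mk r a, rfl⟩
    · rintro ⟨q, rfl⟩
      induction q using Quotient.inductionOn with
      | h a => exact ⟨a, rfl⟩
  rw [h1, Finset.card_image_of_injective _ hinj, Finset.card_univ, Nat.card_eq_fintype_card]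

/-- the action on `J` -/
@[reducible] def actJ : MulAction (G × Gᵐᵒᵖ) J where
  smul := fun p y => A.T p.1 p.2.unop y
  one_smul := fun y => A.T_one y
  mul_smul := fun p p' y => (A.T_mul _ _ _ _ _).symm

/-- the action on functionals -/
@[reducible] def actD : MulAction (G × Gᵐᵒᵖ) (Module.Dual F J) where
  smul := fun p m => m ∘ₗ A.T p.1⁻¹ p.2.unop⁻¹
  one_smul := fun m => by
    change m ∘ₗ A.T 1⁻¹ 1⁻¹ = m
    rw [inv_one, A.comp_T_one]
  mul_smul := fun p p' m => by
    change m ∘ₗ A.T (p.1 * p'.1)⁻¹ (p'.2.unop * p.2.unop)⁻¹ =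
      (m ∘ₗ A.T p'.1⁻¹ p'.2.unop⁻¹) ∘ₗ A.T p.1⁻¹ p.2.unop⁻¹
    rw [A.T_comp, mul_inv_rev, mul_inv_rev]

lemma card_fix (u v : G) :
    Nat.card {m : Module.Dual F J // m ∘ₗ A.T u⁻¹ v⁻¹ = m} =
      Nat.card {y : J // A.T u v y = y} := by
  have h1 : ∀ m : Module.Dual F J, m ∘ₗ A.T u⁻¹ v⁻¹ = m ↔
      m ∈ LinearMap.ker (A.T u v - LinearMap.id).dualMap := by
    intro m
    rw [LinearMap.mem_ker]
    constructor
    · intro h
      ext y
      have h2 := DFunLike.congr_fun h (A.T u v y)
      simp only [LinearMap.comp_apply, A.T_mul] at h2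
      simp only [LinearMap.dualMap_apply, LinearMap.sub_apply, LinearMap.id_apply,
        LinearMap.zero_apply, map_sub]
      rw [← h2]
      simp [A.T_one]
    · intro h
      ext y
      have h2 := DFunLike.congr_fun h (A.T u⁻¹ v⁻¹ y)
      simp only [LinearMap.dualMap_apply, LinearMap.sub_apply, LinearMap.id_apply,
        LinearMap.zero_apply, map_sub, A.T_mul] at h2
      rw [LinearMap.comp_apply]
      have h3 : m y - m (A.T u⁻¹ v⁻¹ y) = 0 := by
        rw [← h2]
        simp [A.T_one]
      exact (sub_eq_zero.mp h3).symm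
  have h2 : ∀ y : J, A.T u v y = y ↔ y ∈ LinearMap.ker (A.T u v - LinearMap.id) := by
    intro y
    rw [LinearMap.mem_ker, LinearMap.sub_apply, LinearMap.id_apply, sub_eq_zero]
  rw [Nat.card_congr (Equiv.subtypeEquivRight h1), Nat.card_congr (Equiv.subtypeEquivRight h2)]
  have hJ : Module.Finite F J := Module.Finite.of_finite
  have h3 : Module.finrank F (LinearMap.ker (A.T u v - LinearMap.id).dualMap) =
      Module.finrank F (LinearMap.ker (A.T u v - LinearMap.id)) := by
    have e1 := LinearMap.finrank_range_add_finrank_ker (A.T u v - LinearMap.id)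
    have e2 := LinearMap.finrank_range_add_finrank_ker (A.T u v - LinearMap.id).dualMap
    have e3 := LinearMap.finrank_range_dualMap_eq_finrank_range (A.T u v - LinearMap.id)
    have e4 : Module.finrank F (Module.Dual F J) = Module.finrank F J :=
      Subspace.dual_finrank_eq
    omega
  have h4 := Module.card_eq_pow_finrank (K := F)
    (V := LinearMap.ker (A.T u v - LinearMap.id).dualMap)
  have h5 := Module.card_eq_pow_finrank (K := F) (V := LinearMap.ker (A.T u v - LinearMap.id))
  have e6 : Nat.card {y // y ∈ LinearMap.ker (A.T u v - LinearMap.id).dualMap} =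
      Fintype.card (LinearMap.ker (A.T u v - LinearMap.id).dualMap) := Nat.card_eq_fintype_card
  have e7 : Nat.card {y // y ∈ LinearMap.ker (A.T u v - LinearMap.id)} =
      Fintype.card (LinearMap.ker (A.T u v - LinearMap.id)) := Nat.card_eq_fintype_card
  rw [e6, e7, h4, h5, h3]

lemma card_orbits :
    Nat.card (Quotient (@MulAction.orbitRel (G × Gᵐᵒᵖ) (Module.Dual F J) _ A.actD)) =
      Nat.card (Quotient (@MulAction.orbitRel (G × Gᵐᵒᵖ) J _ A.actJ)) := by
  letI := A.actJ
  letI := A.actD
  letI : Fintype Gᵐᵒᵖ := Fintype.ofEquiv G MulOpposite.opEquiv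
  have b1 := MulAction.sum_card_fixedBy_eq_card_orbits_mul_card_group (G × Gᵐᵒᵖ) J
  have b2 := MulAction.sum_card_fixedBy_eq_card_orbits_mul_card_group (G × Gᵐᵒᵖ)
    (Module.Dual F J)
  have h : ∀ p : G × Gᵐᵒᵖ, Fintype.card (MulAction.fixedBy J p) =
      Fintype.card (MulAction.fixedBy (Module.Dual F J) p) := by
    intro p
    rw [← Nat.card_eq_fintype_card, ← Nat.card_eq_fintype_card]
    exact (A.card_fix p.1 p.2.unop).symm
  rw [Finset.sum_congr rfl fun p _ => h p, b2] at b1
  have h2 := Nat.eq_of_mul_eq_mul_right Fintype.card_pos b1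
  rw [Nat.card_eq_fintype_card, Nat.card_eq_fintype_card]
  exact h2

/-- the supercharacter theory of two-sided orbits -/
def theory : SCT G where
  X := (A.XP θ hθ).parts
  K := A.KP.parts
  isPart_X := isPart_of_fin _ (fun x => mem_Irr)
  isPart_K := isPart_of_fin _ (fun x => by simp)
  card_eq := by
    have h1 : (A.XP θ hθ).parts.card =
        Nat.card (Quotient (@MulAction.orbitRel (G × Gᵐᵒᵖ) (Module.Dual F J) _ A.actD)) := by
      refine card_image_eq _ _ fun a b => ?_
      rw [A.blk_eq_iff θ hθ, A.mem_orb]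
      letI := A.actD
      rw [MulAction.orbitRel_apply, MulAction.mem_orbit_iff]
      constructor
      · rintro ⟨u, v, rfl⟩
        refine ⟨(u, MulOpposite.op v), ?_⟩
        change (a ∘ₗ A.T u v) ∘ₗ A.T u⁻¹ v⁻¹ = a
        rw [A.T_comp]
        simp [A.comp_T_one]
      · rintro ⟨p, hp⟩
        refine ⟨p.1, p.2.unop, ?_⟩
        rw [← hp]
        change b = (b ∘ₗ A.T p.1⁻¹ p.2.unop⁻¹) ∘ₗ A.T p.1 p.2.unop
        rw [A.T_comp]
        simp [A.comp_T_one]
    have h2 : A.KP.parts.card =
        Nat.card (Quotient (@MulAction.orbitRel (G × Gᵐᵒᵖ) J _ A.actJ)) := by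
      rw [A.KP_parts]
      have h3 : Finset.univ.image (fun g => Finset.univ.filter (fun h => A.rel g h)) =
          (Finset.univ : Finset J).image
            (fun y => Finset.univ.filter (fun h => A.rel (A.s.symm y) h)) := by
        ext S
        simp only [Finset.mem_image, Finset.mem_univ, true_and]
        constructor
        · rintro ⟨g, rfl⟩
          exact ⟨A.s g, by simp⟩
        · rintro ⟨y, rfl⟩
          exact ⟨_, rfl⟩
      rw [h3]
      refine card_image_eq _ _ fun a b => ?_
      letI := A.actJ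
      rw [MulAction.orbitRel_apply, MulAction.mem_orbit_iff]
      have hrel : (∃ p : G × Gᵐᵒᵖ, p • b = a) ↔ A.rel (A.s.symm b) (A.s.symm a) := by
        constructor
        · rintro ⟨p, hp⟩
          refine ⟨p.1, p.2.unop, ?_⟩
          simp only [Equiv.apply_symm_apply]
          exact hp.symm
        · rintro ⟨u, v, huv⟩
          simp only [Equiv.apply_symm_apply] at huv
          exact ⟨(u, MulOpposite.op v), huv.symm⟩
      rw [hrel]
      constructor
      · intro h
        have h4 : A.s.symm a ∈ Finset.univ.filter (fun h => A.rel (A.s.symm a) h) := by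
          simp only [Finset.mem_filter, Finset.mem_univ, true_and]
          exact A.relS.refl _
        have h5 : Finset.univ.filter (fun h => A.rel (A.s.symm a) h) =
          Finset.univ.filter (fun h => A.rel (A.s.symm b) h) := h
        rw [h5] at h4
        exact (Finset.mem_filter.mp h4).2
      · intro h
        ext g
        simp only [Finset.mem_filter, Finset.mem_univ, true_and]
        exact ⟨fun h' => A.relS.trans h h', fun h' => A.relS.trans (A.relS.symm h) h'⟩
    rw [h1, h2, A.card_orbits]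
  one_mem := by
    rw [A.KP_parts]
    simp only [Finset.mem_image, Finset.mem_univ, true_and]
    refine ⟨1, ?_⟩
    ext g
    simp only [Finset.mem_filter, Finset.mem_univ, true_and, Finset.mem_singleton]
    constructor
    · rintro ⟨u, v, h⟩
      rw [A.s_one, map_zero, ← A.s_one] at h
      exact A.s.injective h
    · rintro rfl
      exact A.relS.refl _
  const := by
    intro S hS C hC g hg h hh
    simp only [XP, Finset.mem_image, Finset.mem_univ, true_and] at hS
    obtain ⟨m, rfl⟩ := hS
    rw [A.KP_parts] at hC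
    simp only [Finset.mem_image, Finset.mem_univ, true_and] at hC
    obtain ⟨x, rfl⟩ := hC
    have hg' := (Finset.mem_filter.mp hg).2
    have hh' := (Finset.mem_filter.mp hh).2
    rw [A.sum_blk θ hθ m g, A.sum_blk θ hθ m h, A.orbSum_super θ m hg', A.orbSum_super θ m hh']

lemma mem_theory_K (C : Finset G) : C ∈ (A.theory θ hθ).K ↔
    ∃ g, C = Finset.univ.filter (fun h => A.rel g h) := by
  change C ∈ A.KP.parts ↔ _
  rw [A.KP_parts]
  simp only [Finset.mem_image, Finset.mem_univ, true_and]
  exact ⟨fun ⟨g, h⟩ => ⟨g, h.symm⟩, fun ⟨g, h⟩ => ⟨g, h.symm⟩⟩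

lemma mem_theory_X (S : Finset (G → ℂ)) : S ∈ (A.theory θ hθ).X ↔ ∃ m, A.blk θ m = S := by
  change S ∈ (A.XP θ hθ).parts ↔ _
  simp only [XP, Finset.mem_image, Finset.mem_univ, true_and]

end AG

end Pool.Agent.X256.SC
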