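import Pool.Agent.X256.SC.AG2

/-!
# Irreducibility of orbit sums
-/

open scoped BigOperators Classical
open Representation Pool.Agent.Helper884.IC Pool.Agent.X256.CT

noncomputable section

namespace Pool.Agent.X256.SC

namespace AG

variable {F J G : Type} [Field F] [Fintype F] [AddCommGroup J] [Module F J] [Fintype J] [Group G]
  [Fintype G] (A : AG F J G) (θ : AddChar F ℂ) (hθ : θ ≠ 1)

lemma four_conj (m : Module.Dual F J) {psi : G → ℂ} (hpsi : IsClass psi) (u : G) :
    A.four θ (m ∘ₗ A.T u u⁻¹) psi = A.four θ m psi := by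
  unfold four
  refine Fintype.sum_equiv (MulAut.conj u).toEquiv _ _ fun g => ?_
  have e1 : (MulAut.conj u).toEquiv g = u * g * u⁻¹ := by simp
  rw [e1, hpsi g u, A.s_conj]
  rfl

include hθ in
lemma irr_of_trans (m : Module.Dual F J)
    (htr : ∀ k ∈ A.orb m, ∃ u : G, k = m ∘ₗ A.T u u⁻¹) {psi : G → ℂ} (hpsi : psi ∈ A.blk θ m)
    (g : G) : psi g = psi 1 / ((A.orb m).card : ℂ) * A.orbSum θ m g := by
  have hirr := ((A.mem_blk θ).mp hpsi).1
  have h1 : ∀ g : G, (∑ l ∈ A.orb m, θ (l (A.s g)) * A.four θ l psi) * psi 1 =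
      (Nat.card G : ℂ) * B (A.orbSum θ m) psi * psi g := by
    intro g
    rw [← A.conv_orbSum θ m psi g]
    exact conv_irr (A.orbSum θ m) (A.orbSum_class θ m) hirr g
  have h2 : ∀ g : G, ∑ l ∈ A.orb m, θ (l (A.s g)) * A.four θ l psi =
      A.four θ m psi * A.orbSum θ m g := by
    intro g
    unfold orbSum
    rw [Finset.mul_sum]
    refine Finset.sum_congr rfl fun l hl => ?_
    obtain ⟨u, rfl⟩ := htr l hl
    rw [A.four_conj θ m hirr.isClass u, mul_comm]
  have hB := A.B_orbSum_blk θ hθ m hirr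
  rw [if_pos hpsi] at hB
  have hne := Pool.Agent.Y63.AWC.one_ne hirr
  have h3 : ∀ g : G, A.four θ m psi * A.orbSum θ m g = (Nat.card G : ℂ) * psi g := by
    intro g
    have := h1 g
    rw [h2, hB] at this
    apply mul_right_cancel₀ hne
    rw [this]
    ring
  have hG := cardG_ne (G := G)
  have hO : ((A.orb m).card : ℂ) ≠ 0 := by
    exact_mod_cast Finset.card_ne_zero_of_mem (A.self_mem_orb m)
  have h4 := h3 1
  rw [A.orbSum_one] at h4
  have h5 := h3 g
  have h6 : A.four θ m psi = (Nat.card G : ℂ) * psi 1 / ((A.orb m).card : ℂ) := by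
    rw [← h4]
    field_simp
  rw [h6] at h5
  apply mul_left_cancel₀ hG
  rw [← h5]
  ring

include hθ in
lemma blk_singleton (m : Module.Dual F J)
    (htr : ∀ k ∈ A.orb m, ∃ u : G, k = m ∘ₗ A.T u u⁻¹) :
    ∃ chi : G → ℂ, A.blk θ m = {chi} ∧ ∃ c : ℝ, 0 < c ∧ ∀ g, chi g = (c : ℂ) * A.orbSum θ m g := by
  obtain ⟨chi, hchi⟩ := A.blk_nonempty θ hθ m
  have hirr := ((A.mem_blk θ).mp hchi).1
  refine ⟨chi, ?_, ?_⟩
  · rw [Finset.eq_singleton_iff_unique_mem]
    refine ⟨hchi, fun psi hpsi => ?_⟩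
    have hirr' := ((A.mem_blk θ).mp hpsi).1
    by_contra hne
    have h0 := B_irr hirr' hirr
    rw [if_neg hne] at h0
    have h1 : psi = (psi 1 / chi 1) • chi := by
      funext g
      rw [Pi.smul_apply, smul_eq_mul, A.irr_of_trans θ hθ m htr hpsi g,
        A.irr_of_trans θ hθ m htr hchi g]
      have := Pool.Agent.Y63.AWC.one_ne hirr
      field_simp
    rw [h1, B_smul_left, B_irr hirr hirr, if_pos rfl, mul_one] at h0
    rcases div_eq_zero_iff.mp h0 with h | h
    · exact Pool.Agent.Y63.AWC.one_ne hirr' h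
    · exact Pool.Agent.Y63.AWC.one_ne hirr h
  · obtain ⟨n, hn, hn1⟩ := Pool.Agent.Y63.AWC.deg_nat hirr
    have hO : 0 < (A.orb m).card := Finset.card_pos.mpr ⟨m, A.self_mem_orb m⟩
    refine ⟨(n : ℝ) / ((A.orb m).card : ℝ), by positivity, fun g => ?_⟩
    rw [A.irr_of_trans θ hθ m htr hchi g, hn1]
    push_cast
    rfl

end AG

end Pool.Agent.X256.SC
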