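import Pool.Agent.X256.SC.UT

/-!
# Single-box functionals: transitivity and value formulas
-/

open scoped BigOperators Classical
open Representation Pool.Agent.Helper884.IC Pool.Agent.X256.CT

noncomputable section

namespace Pool.Agent.X256.SC

variable {n : ℕ} {F : Type} [Field F] [Fintype F]

/-- the single-box functional `y ↦ a * y i j` -/
def box (i j : Fin n) (a : F) : Module.Dual F (nil n F) where
  toFun y := a * (y : Matrix (Fin n) (Fin n) F) i j
  map_add' := by
    intro x y
    simp [mul_add]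
  map_smul' := by
    intro c x
    simp only [SetLike.val_smul, Matrix.smul_apply, smul_eq_mul, RingHom.id_apply]
    ring

lemma box_apply (i j : Fin n) (a : F) (y : nil n F) :
    box i j a y = a * (y : Matrix (Fin n) (Fin n) F) i j := rfl

lemma mul3_apply (u y v : Matrix (Fin n) (Fin n) F) (i j : Fin n) :
    (u * y * v) i j = ∑ l, ∑ k, u i k * y k l * v l j := by
  rw [Matrix.mul_apply]
  refine Finset.sum_congr rfl fun l _ => ?_
  rw [Matrix.mul_apply, Finset.sum_mul]

/-- the conjugation orbit of a single-box functional is the whole two-sided orbit -/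
lemma box_trans (i j : Fin n) (hij : i < j) (a : F) (k : Module.Dual F (nil n F))
    (hk : k ∈ (uag n F).orb (box i j a)) :
    ∃ h : U n F, k = box i j a ∘ₗ (uag n F).T h h⁻¹ := by
  obtain ⟨u, v, rfl⟩ := (uag n F).mem_orb.mp hk
  let R : Matrix (Fin n) (Fin n) F := fun p q => if p = i ∧ i < q ∧ q < j then mat u i q else 0
  let C : Matrix (Fin n) (Fin n) F := fun p q => if q = j ∧ i < p ∧ p < j then mat v p j else 0
  have hR : R ∈ nil n F := by
    intro p q hpq
    change (if p = i ∧ i < q ∧ q < j then mat u i q else 0) = 0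
    rw [if_neg]
    rintro ⟨rfl, h1, _⟩
    exact absurd h1 (not_lt.mpr hpq)
  have hC : C ∈ nil n F := by
    intro p q hpq
    change (if q = j ∧ i < p ∧ p < j then mat v p j else 0) = 0
    rw [if_neg]
    rintro ⟨rfl, _, h1⟩
    exact absurd h1 (not_lt.mpr hpq)
  have hRR : R * R = 0 := by
    ext p q
    rw [Matrix.mul_apply]
    refine Finset.sum_eq_zero fun r _ => ?_
    change (if p = i ∧ i < r ∧ r < j then mat u i r else 0) *
      (if r = i ∧ i < q ∧ q < j then mat u i q else 0) = 0
    by_cases h : p = i ∧ i < r ∧ r < j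
    · rw [if_neg (c := r = i ∧ i < q ∧ q < j), mul_zero]
      rintro ⟨rfl, _⟩
      exact lt_irrefl _ h.2.1
    · rw [if_neg h, zero_mul]
  have hCC : C * C = 0 := by
    ext p q
    rw [Matrix.mul_apply]
    refine Finset.sum_eq_zero fun r _ => ?_
    change (if r = j ∧ i < p ∧ p < j then mat v p j else 0) *
      (if q = j ∧ i < r ∧ r < j then mat v r j else 0) = 0
    by_cases h : r = j ∧ i < p ∧ p < j
    · rw [if_neg (c := q = j ∧ i < r ∧ r < j), mul_zero]
      rintro ⟨_, _, h2⟩
      rw [h.1] at h2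
      exact lt_irrefl _ h2
    · rw [if_neg h, zero_mul]
  have hR1 : IsUT (1 + R) := isUT_one_add hR
  have hR2 : IsUT (1 + -R) := isUT_one_add ((nil n F).neg_mem hR)
  have hC1 : IsUT (1 + C) := isUT_one_add hC
  have hC2 : IsUT (1 + -C) := isUT_one_add ((nil n F).neg_mem hC)
  let h : U n F := ofMat (1 + R) hR1 * ofMat (1 + -C) hC2
  have hinv : h⁻¹ = ofMat (1 + C) hC1 * ofMat (1 + -R) hR2 := by
    rw [inv_eq_iff_mul_eq_one]
    apply mat_inj
    change (1 + R) * (1 + -C) * ((1 + C) * (1 + -R)) = 1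
    have e1 : (1 + -C) * (1 + C) = 1 := by
      have : (1 + -C) * (1 + C) = 1 - C * C := by noncomm_ring
      rw [this, hCC, sub_zero]
    have e2 : (1 + R) * (1 + -R) = 1 := by
      have : (1 + R) * (1 + -R) = 1 - R * R := by noncomm_ring
      rw [this, hRR, sub_zero]
    rw [mul_assoc, ← mul_assoc (1 + -C), e1, one_mul, e2]
  have hrow : ∀ q, q < j → mat h i q = mat u i q := by
    intro q hq
    change ((1 + R) * (1 + -C)) i q = _
    have e1 : ((1 + R) * C) i q = 0 := by
      rw [Matrix.mul_apply]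
      refine Finset.sum_eq_zero fun r _ => ?_
      have : C r q = 0 := by
        change (if q = j ∧ i < r ∧ r < j then mat v r j else 0) = 0
        rw [if_neg]
        rintro ⟨h1, _⟩
        exact ne_of_lt hq h1
      rw [this, mul_zero]
    have e2 : (1 + R) * (1 + -C) = (1 + R) - (1 + R) * C := by noncomm_ring
    rw [e2, Matrix.sub_apply, e1, sub_zero, Matrix.add_apply]
    change (1 : Matrix (Fin n) (Fin n) F) i q + (if i = i ∧ i < q ∧ q < j then mat u i q else 0) = _
    rcases lt_trichotomy q i with h1 | h1 | h1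
    · rw [Matrix.one_apply_ne (ne_of_gt h1), if_neg, (mat_isUT u).2 i q h1, add_zero]
      rintro ⟨_, h2, _⟩
      exact absurd h2 (not_lt.mpr h1.le)
    · subst h1
      rw [Matrix.one_apply_eq, if_neg, (mat_isUT u).1, add_zero]
      rintro ⟨_, h2, _⟩
      exact lt_irrefl _ h2
    · rw [Matrix.one_apply_ne (ne_of_lt h1), if_pos ⟨rfl, h1, hq⟩, zero_add]
  have hcol : ∀ p, i < p → mat h⁻¹ p j = mat v p j := by
    intro p hp
    rw [hinv]
    change ((1 + C) * (1 + -R)) p j = _
    have e1 : ((1 + C) * R) p j = 0 := by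
      rw [Matrix.mul_apply]
      refine Finset.sum_eq_zero fun r _ => ?_
      have : R r j = 0 := by
        change (if r = i ∧ i < j ∧ j < j then mat u i j else 0) = 0
        rw [if_neg]
        rintro ⟨_, _, h1⟩
        exact lt_irrefl _ h1
      rw [this, mul_zero]
    have e2 : (1 + C) * (1 + -R) = (1 + C) - (1 + C) * R := by noncomm_ring
    rw [e2, Matrix.sub_apply, e1, sub_zero, Matrix.add_apply]
    change (1 : Matrix (Fin n) (Fin n) F) p j + (if j = j ∧ i < p ∧ p < j then mat v p j else 0) = _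
    rcases lt_trichotomy p j with h1 | h1 | h1
    · rw [Matrix.one_apply_ne (ne_of_lt h1), if_pos ⟨rfl, hp, h1⟩, zero_add]
    · subst h1
      rw [Matrix.one_apply_eq, if_neg, (mat_isUT v).1, add_zero]
      rintro ⟨_, _, h2⟩
      exact lt_irrefl _ h2
    · rw [Matrix.one_apply_ne (ne_of_gt h1), if_neg, (mat_isUT v).2 p j h1, add_zero]
      rintro ⟨_, _, h2⟩
      exact absurd h2 (not_lt.mpr h1.le)
  refine ⟨h, ?_⟩
  ext y
  change a * (mat u * (y : Matrix (Fin n) (Fin n) F) * mat v) i j =
    a * (mat h * (y : Matrix (Fin n) (Fin n) F) * mat h⁻¹) i j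
  congr 1
  rw [mul3_apply, mul3_apply]
  refine Finset.sum_congr rfl fun l _ => Finset.sum_congr rfl fun k _ => ?_
  by_cases hkl : l ≤ k
  · rw [y.2 k l hkl]
    simp
  · push Not at hkl
    by_cases h1 : k < j
    · by_cases h2 : i < l
      · rw [hrow k h1, hcol l h2]
      · push Not at h2
        have h3 : k < i := lt_of_lt_of_le hkl h2
        rw [(mat_isUT u).2 i k h3, (mat_isUT h).2 i k h3]
        simp
    · push Not at h1
      have h3 : j < l := lt_of_le_of_lt h1 hkl
      rw [(mat_isUT v).2 l j h3, (mat_isUT h⁻¹).2 l j h3]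
      simp

/-- the value sums -/
def Ssum (θ : AddChar F ℂ) (i j : Fin n) (a : F) (x : Matrix (Fin n) (Fin n) F) : ℂ :=
  ∑ v : U n F, ∑ u : U n F, θ (a * (mat u * x * mat v) i j)

lemma Ssum_inv (θ : AddChar F ℂ) (i j : Fin n) (a : F) (x : Matrix (Fin n) (Fin n) F)
    (u0 v0 : U n F) : Ssum θ i j a (mat u0 * x * mat v0) = Ssum θ i j a x := by
  unfold Ssum
  refine Fintype.sum_equiv (Equiv.mulLeft v0) _ _ fun v => ?_
  refine Fintype.sum_equiv (Equiv.mulRight u0) _ _ fun u => ?_
  simp only [Equiv.coe_mulRight, Equiv.coe_mulLeft, mat_mul, mul_assoc]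

lemma orbSum_Ssum (θ : AddChar F ℂ) (i j : Fin n) (a : F) (g : U n F) :
    (((uag n F).orb (box i j a)).card : ℂ) * Ssum θ i j a (mat g - 1) =
      (Fintype.card (U n F) : ℂ) ^ 2 * (uag n F).orbSum θ (box i j a) g := by
  have h1 : ∀ k ∈ (uag n F).orb (box i j a),
      ∑ v : U n F, ∑ u : U n F, θ (k ((uag n F).T u v ((uag n F).s g))) =
        Ssum θ i j a (mat g - 1) := by
    intro k hk
    obtain ⟨u0, v0, rfl⟩ := (uag n F).mem_orb.mp hk
    unfold Ssum
    refine Fintype.sum_equiv (Equiv.mulRight v0) _ _ fun v => ?_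
    refine Fintype.sum_equiv (Equiv.mulLeft u0) _ _ fun u => ?_
    rw [LinearMap.comp_apply, (uag n F).T_mul]
    rfl
  have h2 : ∑ k ∈ (uag n F).orb (box i j a),
      ∑ v : U n F, ∑ u : U n F, θ (k ((uag n F).T u v ((uag n F).s g))) =
      (((uag n F).orb (box i j a)).card : ℂ) * Ssum θ i j a (mat g - 1) := by
    rw [Finset.sum_congr rfl h1, Finset.sum_const, nsmul_eq_mul]
  rw [← h2, Finset.sum_comm]
  have h3 : ∀ v : U n F, ∑ k ∈ (uag n F).orb (box i j a),
      ∑ u : U n F, θ (k ((uag n F).T u v ((uag n F).s g))) =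
      (Fintype.card (U n F) : ℂ) * (uag n F).orbSum θ (box i j a) g := by
    intro v
    rw [Finset.sum_comm]
    have h4 : ∀ u : U n F, ∑ k ∈ (uag n F).orb (box i j a),
        θ (k ((uag n F).T u v ((uag n F).s g))) = (uag n F).orbSum θ (box i j a) g := by
      intro u
      exact (uag n F).sum_orb (box i j a) u v (fun k => θ (k ((uag n F).s g)))
    rw [Finset.sum_congr rfl fun u _ => h4 u, Finset.sum_const, nsmul_eq_mul, Finset.card_univ]
  rw [Finset.sum_congr rfl fun v _ => h3 v, Finset.sum_const, nsmul_eq_mul, Finset.card_univ]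
  ring

lemma Ssum_eq_of_orbSum (θ : AddChar F ℂ) (i j : Fin n) (a : F) (g h : U n F)
    (hgh : (uag n F).orbSum θ (box i j a) g = (uag n F).orbSum θ (box i j a) h) :
    Ssum θ i j a (mat g - 1) = Ssum θ i j a (mat h - 1) := by
  have h1 := orbSum_Ssum θ i j a g
  rw [hgh, ← orbSum_Ssum θ i j a h] at h1
  refine mul_left_cancel₀ ?_ h1
  exact_mod_cast Finset.card_ne_zero_of_mem ((uag n F).self_mem_orb _)

end Pool.Agent.X256.SC
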