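import Pool.Agent.X256.CT.Basic

/-!
# Convolution of a class function with an irreducible character
-/

open scoped BigOperators Classical
open Representation Pool.Agent.Helper884.IC Pool.Agent.X256.CT

noncomputable section

namespace Pool.Agent.X256.SC

variable {G : Type} [Group G] [Fintype G]

lemma Top_scalar {V : Type} [AddCommGroup V] [Module ℂ V] [FiniteDimensional ℂ V]
    (rho : Representation ℂ G V) [hirr : rho.IsIrreducible] (f : G → ℂ) (hf : IsClass f) :
    ∃ c : ℂ, Top rho f = c • LinearMap.id ∧
      c * rho.character 1 = (Nat.card G : ℂ) * B f rho.character := by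
  have hcomm : ∀ (h : G) (v : V), Top rho f (rho h v) = rho h (Top rho f v) := by
    intro h v
    simp only [Pool.Agent.Helper884.IC.Top, LinearMap.sum_apply, LinearMap.smul_apply, map_sum, map_smul]
    have : ∀ g : G, rho g⁻¹ (rho h v) = rho h (rho (h⁻¹ * g⁻¹ * h) v) := by
      intro g
      rw [← Module.End.mul_apply, ← Module.End.mul_apply, ← map_mul, ← map_mul]
      congr 2
      group
    simp_rw [this]
    refine Fintype.sum_equiv (MulAut.conj h⁻¹).toEquiv _ _ ?_
    intro g
    have e1 : (MulAut.conj h⁻¹).toEquiv g = h⁻¹ * g * h := by simp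
    rw [e1]
    have h1 : f (h⁻¹ * g * h) = f g := by
      have := hf g h⁻¹
      simpa using this
    rw [h1]
    congr 4
    group
  let T : IntertwiningMap rho rho := (Top rho f).intertwiningMap_of_isIntertwiningMap rho rho hcomm
  obtain ⟨c, hc⟩ := (Representation.IsIrreducible.algebraMap_intertwiningMap_bijective_of_isAlgClosed
    (ρ := rho)).2 T
  have hT : Top rho f = c • LinearMap.id := by
    ext v
    have := congrArg (fun S : IntertwiningMap rho rho => S v) hc
    have h2 : T v = Top rho f v := rfl
    rw [← h2]
    exact this.symm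
  have htr : LinearMap.trace ℂ V (Top rho f) = ∑ g : G, f g * rho.character g⁻¹ := by
    simp [Pool.Agent.Helper884.IC.Top, Representation.character]
  refine ⟨c, hT, ?_⟩
  unfold B
  rw [← mul_assoc, mul_inv_cancel₀ cardG_ne, one_mul, ← htr, hT]
  simp [Representation.character]

/-- convolution of a class function with an irreducible character -/
lemma conv_irr (f : G → ℂ) (hf : IsClass f) {psi : G → ℂ} (hpsi : IsIrrChar psi) (g : G) :
    (∑ x : G, f x * psi (x⁻¹ * g)) * psi 1 = (Nat.card G : ℂ) * B f psi * psi g := by
  obtain ⟨V, _, _, _, rho, hr, rfl⟩ := hpsi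
  obtain ⟨c, hc, hc1⟩ := Top_scalar rho f hf
  have h1 : ∑ x : G, f x * rho.character (x⁻¹ * g) = c * rho.character g := by
    have h2 : LinearMap.trace ℂ V (Top rho f * rho g) =
        ∑ x : G, f x * rho.character (x⁻¹ * g) := by
      simp only [Pool.Agent.Helper884.IC.Top, Finset.sum_mul, map_sum, Representation.character, map_mul,
        smul_mul_assoc, map_smul, smul_eq_mul]
    rw [← h2, hc]
    have h3 : (c • (LinearMap.id : V →ₗ[ℂ] V)) * rho g = c • rho g := by
      rw [smul_mul_assoc]
      rfl
    rw [h3, map_smul, smul_eq_mul]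
    rfl
  rw [h1, ← hc1]
  ring

end Pool.Agent.X256.SC
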