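import Pool.Agent.X256.SC.Box

/-!
# Two-sided orbits are determined by the single-box value sums
-/

open scoped BigOperators Classical
open Representation Pool.Agent.Helper884.IC Pool.Agent.X256.CT

noncomputable section

namespace Pool.Agent.X256.SC

variable {n : ℕ} {F : Type} [Field F] [Fintype F]

/-- elementary matrices above the diagonal -/
lemma single_nil {l j : Fin n} (h : l < j) (t : F) : Matrix.single l j t ∈ nil n F := by
  intro p q hpq
  rw [Matrix.single_apply, if_neg]
  rintro ⟨rfl, rfl⟩
  exact absurd h (not_lt.mpr hpq)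

/-- transvections -/
def trv {l j : Fin n} (h : l < j) (t : F) : U n F :=
  ofMat (1 + Matrix.single l j t) (isUT_one_add (single_nil h t))

lemma mat_trv {l j : Fin n} (h : l < j) (t : F) : mat (trv h t) = 1 + Matrix.single l j t := rfl

/-- `(w E_{lj}(t) v) i j = t * w i l * v j j` -/
lemma mul_single_mul (w v : Matrix (Fin n) (Fin n) F) (l j i : Fin n) (t : F) :
    (w * Matrix.single l j t * v) i j = w i l * t * v j j := by
  rw [Matrix.mul_apply, Finset.sum_eq_single j]
  · congr 1
    rw [Matrix.mul_apply, Finset.sum_eq_single l]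
    · simp
    · intro k _ hk
      rw [Matrix.single_apply, if_neg, mul_zero]
      rintro ⟨h1, _⟩
      exact hk h1.symm
    · intro h
      exact absurd (Finset.mem_univ _) h
  · intro k _ hk
    have : (w * Matrix.single l j t) i k = 0 := by
      rw [Matrix.mul_apply]
      refine Finset.sum_eq_zero fun r _ => ?_
      rw [Matrix.single_apply, if_neg, mul_zero]
      rintro ⟨_, h1⟩
      exact hk h1.symm
    rw [this, zero_mul]
  · intro h
    exact absurd (Finset.mem_univ _) h

lemma exists_t {θ : AddChar F ℂ} (hθ : θ ≠ 1) {c : F} (hc : c ≠ 0) : ∃ t : F, θ (c * t) ≠ 1 := by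
  obtain ⟨a, ha⟩ := AddChar.ne_one_iff.mp hθ
  refine ⟨c⁻¹ * a, ?_⟩
  rwa [← mul_assoc, mul_inv_cancel₀ hc, one_mul]

lemma ut_mul_apply_top {u x : Matrix (Fin n) (Fin n) F} (hu : IsUT u) (i l : Fin n)
    (h : ∀ k, i < k → x k l = 0) : (u * x) i l = x i l := by
  rw [Matrix.mul_apply, Finset.sum_eq_single i]
  · rw [hu.1, one_mul]
  · intro k _ hk
    rcases lt_or_gt_of_ne hk with h1 | h1
    · rw [hu.2 i k h1, zero_mul]
    · rw [h k h1, mul_zero]
  · intro h
    exact absurd (Finset.mem_univ _) h

lemma mul_ut_apply_left {v x : Matrix (Fin n) (Fin n) F} (hv : IsUT v) (k j : Fin n)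
    (h : ∀ l, l < j → x k l = 0) : (x * v) k j = x k j := by
  rw [Matrix.mul_apply, Finset.sum_eq_single j]
  · rw [hv.1, mul_one]
  · intro l _ hl
    rcases lt_or_gt_of_ne hl with h1 | h1
    · rw [h l h1, zero_mul]
    · rw [hv.2 l j h1, mul_zero]
  · intro h
    exact absurd (Finset.mem_univ _) h

/-- vanishing of the value sum, row version -/
lemma Ssum_zero_row {θ : AddChar F ℂ} (hθ : θ ≠ 1) {i j k : Fin n} {a : F} (ha : a ≠ 0)
    (hik : i < k) {x : Matrix (Fin n) (Fin n) F} (hx : x k j ≠ 0) (hrow : ∀ l, l ≠ j → x k l = 0) :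
    Ssum θ i j a x = 0 := by
  obtain ⟨t, ht⟩ := exists_t hθ (c := a * x k j) (mul_ne_zero ha hx)
  have h1 : Ssum θ i j a x = θ (a * x k j * t) * Ssum θ i j a x := by
    conv_lhs => unfold Ssum
    unfold Ssum
    rw [Finset.mul_sum]
    refine Finset.sum_congr rfl fun v _ => ?_
    rw [Finset.mul_sum]
    refine (Fintype.sum_equiv (Equiv.mulRight (trv hik t)) _ _ fun u => ?_).symm
    rw [Equiv.coe_mulRight, mat_mul, mat_trv, ← AddChar.map_add_eq_mul]
    congr 1
    have e1 : mat u * (1 + Matrix.single i k t) * x * mat v =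
        mat u * x * mat v + mat u * Matrix.single i k t * (x * mat v) := by noncomm_ring
    rw [e1, Matrix.add_apply]
    have e2 : (mat u * Matrix.single i k t * (x * mat v)) i j = t * x k j := by
      rw [Matrix.mul_apply, Finset.sum_eq_single k]
      · have e3 : (mat u * Matrix.single i k t) i k = t := by
          rw [Matrix.mul_apply, Finset.sum_eq_single i]
          · rw [(mat_isUT u).1]
            simp
          · intro r _ hr
            rw [Matrix.single_apply, if_neg, mul_zero]
            rintro ⟨h1, _⟩
            exact hr h1.symm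
          · intro h
            exact absurd (Finset.mem_univ _) h
        rw [e3, mul_ut_apply_left (mat_isUT v) k j (fun l hl => hrow l (ne_of_lt hl))]
      · intro r _ hr
        have : (mat u * Matrix.single i k t) i r = 0 := by
          rw [Matrix.mul_apply]
          refine Finset.sum_eq_zero fun p _ => ?_
          rw [Matrix.single_apply, if_neg, mul_zero]
          rintro ⟨_, h1⟩
          exact hr h1.symm
        rw [this, zero_mul]
      · intro h
        exact absurd (Finset.mem_univ _) h
    rw [e2]
    ring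
  have h2 : (1 - θ (a * x k j * t)) * Ssum θ i j a x = 0 := by
    rw [sub_mul, one_mul, ← h1, sub_self]
  rcases mul_eq_zero.mp h2 with h3 | h3
  · exact absurd (sub_eq_zero.mp h3).symm ht
  · exact h3

/-- vanishing of the value sum, column version -/
lemma Ssum_zero_col {θ : AddChar F ℂ} (hθ : θ ≠ 1) {i j l : Fin n} {a : F} (ha : a ≠ 0)
    (hlj : l < j) {x : Matrix (Fin n) (Fin n) F} (hx : x i l ≠ 0) (hcol : ∀ k, k ≠ i → x k l = 0) :
    Ssum θ i j a x = 0 := by
  obtain ⟨t, ht⟩ := exists_t hθ (c := a * x i l) (mul_ne_zero ha hx)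
  have h1 : Ssum θ i j a x = θ (a * x i l * t) * Ssum θ i j a x := by
    conv_lhs => unfold Ssum
    unfold Ssum
    rw [Finset.mul_sum]
    refine (Fintype.sum_equiv (Equiv.mulLeft (trv hlj t)) _ _ fun v => ?_).symm
    rw [Finset.mul_sum]
    refine Finset.sum_congr rfl fun u _ => ?_
    rw [Equiv.coe_mulLeft, mat_mul, mat_trv, ← AddChar.map_add_eq_mul]
    congr 1
    have e1 : mat u * x * ((1 + Matrix.single l j t) * mat v) =
        mat u * x * mat v + (mat u * x) * Matrix.single l j t * mat v := by noncomm_ring
    rw [e1, Matrix.add_apply, mul_single_mul, (mat_isUT v).1,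
      ut_mul_apply_top (mat_isUT u) i l (fun k hk => hcol k (ne_of_gt hk))]
    ring
  have h2 : (1 - θ (a * x i l * t)) * Ssum θ i j a x = 0 := by
    rw [sub_mul, one_mul, ← h1, sub_self]
  rcases mul_eq_zero.mp h2 with h3 | h3
  · exact absurd (sub_eq_zero.mp h3).symm ht
  · exact h3

/-- inner sums over `u` -/
lemma sum_u {θ : AddChar F ℂ} (hθ : θ ≠ 1) {i j : Fin n} {a : F} (ha : a ≠ 0)
    (w : Matrix (Fin n) (Fin n) F) :
    ∑ u : U n F, θ (a * (mat u * w) i j) =
      if ∀ k, i < k → w k j = 0 then (Fintype.card (U n F) : ℂ) * θ (a * w i j) else 0 := by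
  split_ifs with h
  · rw [Finset.sum_congr rfl (g := fun _ => θ (a * w i j))]
    · rw [Finset.sum_const, nsmul_eq_mul, Finset.card_univ]
    · intro u _
      rw [ut_mul_apply_top (mat_isUT u) i j h]
  · push Not at h
    obtain ⟨k, hik, hk⟩ := h
    obtain ⟨t, ht⟩ := exists_t hθ (c := a * w k j) (mul_ne_zero ha hk)
    set S0 := ∑ u : U n F, θ (a * (mat u * w) i j) with hS
    have h1 : S0 = θ (a * w k j * t) * S0 := by
      rw [hS, Finset.mul_sum]
      refine (Fintype.sum_equiv (Equiv.mulRight (trv hik t)) _ _ fun u => ?_).symm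
      rw [Equiv.coe_mulRight, mat_mul, mat_trv, ← AddChar.map_add_eq_mul]
      congr 1
      have e1 : mat u * (1 + Matrix.single i k t) * w =
          mat u * w + mat u * Matrix.single i k t * w := by noncomm_ring
      rw [e1, Matrix.add_apply]
      have e2 : (mat u * Matrix.single i k t * w) i j = t * w k j := by
        rw [Matrix.mul_apply, Finset.sum_eq_single k]
        · have e3 : (mat u * Matrix.single i k t) i k = t := by
            rw [Matrix.mul_apply, Finset.sum_eq_single i]
            · rw [(mat_isUT u).1]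
              simp
            · intro r _ hr
              rw [Matrix.single_apply, if_neg, mul_zero]
              rintro ⟨h1, _⟩
              exact hr h1.symm
            · intro h
              exact absurd (Finset.mem_univ _) h
          rw [e3]
        · intro r _ hr
          have : (mat u * Matrix.single i k t) i r = 0 := by
            rw [Matrix.mul_apply]
            refine Finset.sum_eq_zero fun p _ => ?_
            rw [Matrix.single_apply, if_neg, mul_zero]
            rintro ⟨_, h1⟩
            exact hr h1.symm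
          rw [this, zero_mul]
        · intro h
          exact absurd (Finset.mem_univ _) h
      rw [e2]
      ring
    have h2 : (1 - θ (a * w k j * t)) * S0 = 0 := by
      rw [sub_mul, one_mul, ← h1, sub_self]
    rcases mul_eq_zero.mp h2 with h3 | h3
    · exact absurd (sub_eq_zero.mp h3).symm ht
    · exact h3

/-- nonvanishing case -/
lemma Ssum_pos {θ : AddChar F ℂ} (hθ : θ ≠ 1) {i j : Fin n} {a : F} (ha : a ≠ 0)
    {x : Matrix (Fin n) (Fin n) F} (h1 : ∀ k, i < k → x k j = 0) (h2 : ∀ l, l < j → x i l = 0) :
    ∃ c : ℕ, 0 < c ∧ Ssum θ i j a x = (c : ℂ) * θ (a * x i j) := by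
  have h3 : ∀ v : U n F, ∑ u : U n F, θ (a * (mat u * x * mat v) i j) =
      if ∀ k, i < k → (x * mat v) k j = 0 then
        (Fintype.card (U n F) : ℂ) * θ (a * x i j) else 0 := by
    intro v
    have e1 : ∀ u : U n F, θ (a * (mat u * x * mat v) i j) =
      θ (a * (mat u * (x * mat v)) i j) := fun u => by rw [mul_assoc]
    rw [Finset.sum_congr rfl fun u _ => e1 u, sum_u hθ ha,
      mul_ut_apply_left (mat_isUT v) i j h2]
  refine ⟨Fintype.card (U n F) *
    (Finset.univ.filter (fun v : U n F => ∀ k, i < k → (x * mat v) k j = 0)).card, ?_, ?_⟩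
  · refine Nat.mul_pos Fintype.card_pos (Finset.card_pos.mpr ⟨1, ?_⟩)
    simp only [Finset.mem_filter, Finset.mem_univ, true_and, mat_one, mul_one]
    exact h1
  · unfold Ssum
    rw [Finset.sum_congr rfl fun v _ => h3 v, ← Finset.sum_filter, Finset.sum_const, nsmul_eq_mul]
    push_cast
    ring

/-- quasi-monomial matrices -/
def QM (x : Matrix (Fin n) (Fin n) F) : Prop :=
  ∀ i j, x i j ≠ 0 → (∀ k, k ≠ i → x k j = 0) ∧ (∀ l, l ≠ j → x i l = 0)

lemma norm_theta {θ : AddChar F ℂ} (a : F) : ‖θ a‖ = 1 := by
  exact AddChar.norm_apply θ a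

/-- for quasi-monomial strictly upper triangular matrices the value sums determine the entries -/
lemma QM_unique {θ : AddChar F ℂ} (hθ : θ ≠ 1) {x y : Matrix (Fin n) (Fin n) F}
    (hx : x ∈ nil n F) (hy : y ∈ nil n F) (qx : QM x) (qy : QM y)
    (h : ∀ i j : Fin n, i < j → ∀ a : F, a ≠ 0 → Ssum θ i j a x = Ssum θ i j a y) : x = y := by
  have key : ∀ (d : ℕ) (i j : Fin n), (j : ℕ) = i + d → x i j = y i j := by
    intro d
    induction d using Nat.strong_induction_on with
    | _ d ih =>
      intro i j hd
      by_cases hij : i < j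
      swap
      · push Not at hij
        rw [hx i j hij, hy i j hij]
      have ih' : ∀ k l : Fin n, (l : ℕ) < k + d → x k l = y k l := by
        intro k l hkl
        by_cases hlk : l ≤ k
        · rw [hx k l hlk, hy k l hlk]
        · push Not at hlk
          exact ih (l - k) (by omega) k l (by omega)
      -- the two conditions agree
      have hvan : ∀ {x y : Matrix (Fin n) (Fin n) F} (_ : QM x)
          (_ : ∀ k l : Fin n, (l : ℕ) < k + d → x k l = y k l)
          (_ : ∀ a : F, a ≠ 0 → Ssum θ i j a x = Ssum θ i j a y),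
          (¬ ((∀ k, i < k → x k j = 0) ∧ (∀ l, l < j → x i l = 0))) →
          x i j = 0 ∧ (¬ ((∀ k, i < k → y k j = 0) ∧ (∀ l, l < j → y i l = 0))) := by
        intro x y qx hxy _ hn
        constructor
        · by_contra hne
          apply hn
          obtain ⟨h1, h2⟩ := qx i j hne
          exact ⟨fun k hk => h1 k (ne_of_gt hk), fun l hl => h2 l (ne_of_lt hl)⟩
        · rintro ⟨h1, h2⟩
          apply hn
          constructor
          · intro k hk
            rw [hxy k j (by have : (i : ℕ) < k := hk; omega)]
            exact h1 k hk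
          · intro l hl
            rw [hxy i l (by have : (l : ℕ) < j := hl; omega)]
            exact h2 l hl
      by_cases hc : (∀ k, i < k → x k j = 0) ∧ (∀ l, l < j → x i l = 0)
      · by_cases hc' : (∀ k, i < k → y k j = 0) ∧ (∀ l, l < j → y i l = 0)
        · -- both nonvanishing
          by_contra hne
          have hsub : x i j - y i j ≠ 0 := sub_ne_zero.mpr hne
          obtain ⟨t, ht⟩ := exists_t hθ hsub
          have ht0 : t ≠ 0 := by
            rintro rfl
            apply ht
            rw [mul_zero, AddChar.map_zero_eq_one]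
          obtain ⟨c, hcpos, e1⟩ := Ssum_pos hθ ht0 hc.1 hc.2
          obtain ⟨c', hcpos', e2⟩ := Ssum_pos hθ ht0 hc'.1 hc'.2
          have e3 := h i j hij t ht0
          rw [e1, e2] at e3
          have e4 : (c : ℝ) = c' := by
            have := congrArg (fun z : ℂ => ‖z‖) e3
            rw [norm_mul, norm_mul, norm_theta, norm_theta, Complex.norm_natCast,
              Complex.norm_natCast, mul_one, mul_one] at this
            exact this
          have e5 : c = c' := by exact_mod_cast e4
          subst e5
          have hc0 : (c : ℂ) ≠ 0 := by exact_mod_cast hcpos.ne'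
          have e6 := mul_left_cancel₀ hc0 e3
          apply ht
          have e7 : (x i j - y i j) * t = t * x i j + -(t * y i j) := by ring
          rw [e7, AddChar.map_add_eq_mul, e6, ← AddChar.map_add_eq_mul, add_neg_cancel,
            AddChar.map_zero_eq_one]
        · obtain ⟨_, h2⟩ := hvan qy (fun k l hkl => (ih' k l hkl).symm)
            (fun a ha => (h i j hij a ha).symm) hc'
          exact absurd hc h2
      · obtain ⟨h1, h2⟩ := hvan qx ih' (h i j hij) hc
        obtain ⟨h3, _⟩ := hvan qy (fun k l hkl => (ih' k l hkl).symm)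
            (fun a ha => (h i j hij a ha).symm) h2
        rw [h1, h3]
  ext i j
  by_cases hij : j ≤ i
  · rw [hx i j hij, hy i j hij]
  · push Not at hij
    exact key (j - i) i j (by have : (i : ℕ) < j := hij; omega)

/-- the first `c` columns are clean -/
def Clean (c : ℕ) (x : Matrix (Fin n) (Fin n) F) : Prop :=
  ∀ i j : Fin n, (j : ℕ) < c → x i j ≠ 0 → (∀ k, k ≠ i → x k j = 0) ∧ (∀ l, l ≠ j → x i l = 0)

lemma clean_step (c : Fin n) {x : Matrix (Fin n) (Fin n) F} (hx : Clean c x) :
    ∃ u v : U n F, Clean ((c : ℕ) + 1) (mat u * x * mat v) := by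
  by_cases h0 : ∀ i, x i c = 0
  · refine ⟨1, 1, ?_⟩
    rw [mat_one, one_mul, mul_one]
    intro i j hj hne
    rcases Nat.lt_succ_iff_lt_or_eq.mp hj with h1 | h1
    · exact hx i j h1 hne
    · have : j = c := Fin.ext h1
      subst this
      exact absurd (h0 i) hne
  · push Not at h0
    -- the lowest nonzero entry
    have hne : (Finset.univ.filter (fun i => x i c ≠ 0)).Nonempty := by
      obtain ⟨i, hi⟩ := h0
      exact ⟨i, by simp [hi]⟩
    set i0 := (Finset.univ.filter (fun i => x i c ≠ 0)).max' hne with hi0
    have hp : x i0 c ≠ 0 := (Finset.mem_filter.mp (Finset.max'_mem _ hne)).2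
    have hmax : ∀ m, i0 < m → x m c = 0 := by
      intro m hm
      by_contra h
      have := Finset.le_max' (Finset.univ.filter (fun i => x i c ≠ 0)) m (by simp [h])
      exact absurd hm (not_lt.mpr this)
    clear_value i0
    let W : Matrix (Fin n) (Fin n) F := fun m k => if m < i0 ∧ k = i0 then -(x m c / x i0 c) else 0
    let Z : Matrix (Fin n) (Fin n) F := fun k l => if c < l ∧ k = c then -(x i0 l / x i0 c) else 0
    have hW : W ∈ nil n F := by
      intro m k hmk
      change (if m < i0 ∧ k = i0 then -(x m c / x i0 c) else 0) = 0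
      rw [if_neg]
      rintro ⟨h1, rfl⟩
      exact absurd h1 (not_lt.mpr hmk)
    have hZ : Z ∈ nil n F := by
      intro k l hkl
      change (if c < l ∧ k = c then -(x i0 l / x i0 c) else 0) = 0
      rw [if_neg]
      rintro ⟨h1, rfl⟩
      exact absurd h1 (not_lt.mpr hkl)
    let u : U n F := ofMat (1 + W) (isUT_one_add hW)
    let v : U n F := ofMat (1 + Z) (isUT_one_add hZ)
    have hWx : ∀ m l, (W * x) m l = if m < i0 then -(x m c / x i0 c) * x i0 l else 0 := by
      intro m l
      rw [Matrix.mul_apply, Finset.sum_eq_single i0]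
      · change (if m < i0 ∧ i0 = i0 then -(x m c / x i0 c) else 0) * x i0 l = _
        by_cases h : m < i0
        · rw [if_pos ⟨h, rfl⟩, if_pos h]
        · rw [if_neg (fun h' => h h'.1), if_neg h, zero_mul]
      · intro k _ hk
        change (if m < i0 ∧ k = i0 then -(x m c / x i0 c) else 0) * x k l = 0
        rw [if_neg (fun h' => hk h'.2), zero_mul]
      · intro h
        exact absurd (Finset.mem_univ _) h
    set y := mat u * x with hy
    have hyv : ∀ m l, y m l = x m l + if m < i0 then -(x m c / x i0 c) * x i0 l else 0 := by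
      intro m l
      rw [hy]
      change ((1 + W) * x) m l = _
      rw [add_mul, one_mul, Matrix.add_apply, hWx]
    have hyZ : ∀ m l, (y * Z) m l = if c < l then y m c * -(x i0 l / x i0 c) else 0 := by
      intro m l
      rw [Matrix.mul_apply, Finset.sum_eq_single c]
      · change y m c * (if c < l ∧ c = c then -(x i0 l / x i0 c) else 0) = _
        by_cases h : c < l
        · rw [if_pos ⟨h, rfl⟩, if_pos h]
        · rw [if_neg (fun h' => h h'.1), if_neg h, mul_zero]
      · intro k _ hk
        change y m k * (if c < l ∧ k = c then -(x i0 l / x i0 c) else 0) = 0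
        rw [if_neg (fun h' => hk h'.2), mul_zero]
      · intro h
        exact absurd (Finset.mem_univ _) h
    have hval : ∀ m l, (mat u * x * mat v) m l =
        y m l + if c < l then y m c * -(x i0 l / x i0 c) else 0 := by
      intro m l
      change (y * (1 + Z)) m l = _
      rw [mul_add, mul_one, Matrix.add_apply, hyZ]
    -- facts about x
    have hx0 : ∀ l : Fin n, l < c → x i0 l = 0 := by
      intro l hl
      by_contra h
      have := (hx i0 l hl h).2 c (ne_of_gt hl)
      exact hp this
    -- column c of y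
    have hyc : ∀ m, m ≠ i0 → y m c = 0 := by
      intro m hm
      rw [hyv]
      rcases lt_or_gt_of_ne hm with h | h
      · rw [if_pos h]
        field_simp
        ring
      · rw [if_neg (not_lt.mpr h.le), hmax m h, add_zero]
    have hy0 : ∀ l, y i0 l = x i0 l := by
      intro l
      rw [hyv, if_neg (lt_irrefl _), add_zero]
    have hylt : ∀ m (l : Fin n), l < c → y m l = x m l := by
      intro m l hl
      rw [hyv, hx0 l hl]
      simp
    refine ⟨u, v, ?_⟩
    -- final values
    have f1 : ∀ m l, m ≠ i0 → (mat u * x * mat v) m l = y m l := by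
      intro m l hm
      rw [hval, hyc m hm]
      simp
    have f2 : ∀ l, l ≠ c → (mat u * x * mat v) i0 l = 0 := by
      intro l hl
      rw [hval]
      rcases lt_or_gt_of_ne hl with h | h
      · rw [if_neg (not_lt.mpr h.le), hy0, hx0 l h, add_zero]
      · rw [if_pos h, hy0, hy0]
        field_simp
        ring
    intro i j hj hne
    rcases Nat.lt_succ_iff_lt_or_eq.mp hj with h1 | h1
    · have hjc : j < c := h1
      have hi : i ≠ i0 := by
        rintro rfl
        exact hne (f2 j (ne_of_lt hjc))
      have hxij : x i j ≠ 0 := by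
        rw [f1 i j hi, hylt i j hjc] at hne
        exact hne
      obtain ⟨g1, g2⟩ := hx i j h1 hxij
      constructor
      · intro k hk
        by_cases hk0 : k = i0
        · subst hk0
          exact f2 j (ne_of_lt hjc)
        · rw [f1 k j hk0, hylt k j hjc]
          exact g1 k hk
      · intro l hl
        rw [f1 i l hi, hyv, g2 l hl, g2 c (ne_of_gt hjc)]
        simp
    · have : j = c := Fin.ext h1
      subst this
      have hi : i = i0 := by
        by_contra hi
        rw [f1 i j hi, hyc i hi] at hne
        exact hne rfl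
      subst hi
      constructor
      · intro k hk
        rw [f1 k j hk, hyc k hk]
      · intro l hl
        exact f2 l hl

lemma exists_QM (x : Matrix (Fin n) (Fin n) F) : ∃ u v : U n F, QM (mat u * x * mat v) := by
  have key : ∀ c : ℕ, c ≤ n → ∃ u v : U n F, Clean c (mat u * x * mat v) := by
    intro c
    induction c with
    | zero =>
      intro _
      exact ⟨1, 1, fun i j hj => absurd hj (Nat.not_lt_zero _)⟩
    | succ c ih =>
      intro hc
      obtain ⟨u, v, huv⟩ := ih (by omega)
      obtain ⟨u', v', h'⟩ := clean_step ⟨c, by omega⟩ huv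
      refine ⟨u' * u, v * v', ?_⟩
      rw [mat_mul, mat_mul]
      have : mat u' * mat u * x * (mat v * mat v') = mat u' * (mat u * x * mat v) * mat v' := by
        simp only [mul_assoc]
      rw [this]
      exact h'
  obtain ⟨u, v, h⟩ := key n le_rfl
  exact ⟨u, v, fun i j hne => h i j j.2 hne⟩

/-- the value sums determine the two-sided orbit -/
theorem orbit_of_Ssum {θ : AddChar F ℂ} (hθ : θ ≠ 1) {x y : Matrix (Fin n) (Fin n) F}
    (hx : x ∈ nil n F) (hy : y ∈ nil n F)
    (h : ∀ i j : Fin n, i < j → ∀ a : F, a ≠ 0 → Ssum θ i j a x = Ssum θ i j a y) :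
    ∃ u v : U n F, y = mat u * x * mat v := by
  obtain ⟨u, v, h1⟩ := exists_QM x
  obtain ⟨u', v', h2⟩ := exists_QM y
  have h3 : mat u * x * mat v = mat u' * y * mat v' := by
    refine QM_unique hθ (IsUT.nil_mul (mat_isUT v) (IsUT.mul_nil (mat_isUT u) hx))
      (IsUT.nil_mul (mat_isUT v') (IsUT.mul_nil (mat_isUT u') hy)) h1 h2 ?_
    intro i j hij a ha
    rw [Ssum_inv, Ssum_inv]
    exact h i j hij a ha
  refine ⟨u'⁻¹ * u, v * v'⁻¹, ?_⟩
  rw [mat_mul, mat_mul]
  have h4 : mat u'⁻¹ * mat u * x * (mat v * mat v'⁻¹) =
      mat u'⁻¹ * (mat u * x * mat v) * mat v'⁻¹ := by simp only [mul_assoc]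
  rw [h4, h3]
  have h5 : mat u'⁻¹ * (mat u' * y * mat v') * mat v'⁻¹ =
      (mat u'⁻¹ * mat u') * y * (mat v' * mat v'⁻¹) := by simp only [mul_assoc]
  rw [h5, mat_inv_mul, mat_mul_inv, one_mul, mul_one]

end Pool.Agent.X256.SC
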