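import Pool.Agent.X256.SC.AG3

/-!
# The unitriangular group over a finite field
-/

open scoped BigOperators Classical
open Representation Pool.Agent.Helper884.IC Pool.Agent.X256.CT

noncomputable section

namespace Pool.Agent.X256.SC

/-- strictly upper triangular matrices -/
def nil (n : ℕ) (F : Type) [Field F] : Submodule F (Matrix (Fin n) (Fin n) F) where
  carrier := {y | ∀ i j, j ≤ i → y i j = 0}
  add_mem' := by
    intro a b ha hb i j hij
    rw [Matrix.add_apply, ha i j hij, hb i j hij, add_zero]
  zero_mem' := by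
    intro i j _
    rfl
  smul_mem' := by
    intro c a ha i j hij
    rw [Matrix.smul_apply, ha i j hij, smul_zero]

section
variable {n : ℕ} {F : Type} [Field F]

/-- unitriangular matrices (as a predicate on matrices) -/
def IsUT (u : Matrix (Fin n) (Fin n) F) : Prop :=
  (∀ i, u i i = 1) ∧ ∀ i j, j < i → u i j = 0

lemma mem_nil {y : Matrix (Fin n) (Fin n) F} : y ∈ nil n F ↔ ∀ i j, j ≤ i → y i j = 0 := Iff.rfl

lemma IsUT.one : IsUT (1 : Matrix (Fin n) (Fin n) F) :=
  ⟨fun i => Matrix.one_apply_eq i, fun i j h => Matrix.one_apply_ne (ne_of_gt h)⟩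

lemma IsUT.mul {u v : Matrix (Fin n) (Fin n) F} (hu : IsUT u) (hv : IsUT v) : IsUT (u * v) := by
  constructor
  · intro i
    rw [Matrix.mul_apply, Finset.sum_eq_single i]
    · rw [hu.1, hv.1, one_mul]
    · intro k _ hk
      rcases lt_or_gt_of_ne hk with h | h
      · rw [hu.2 i k h, zero_mul]
      · rw [hv.2 k i h, mul_zero]
    · intro h
      exact absurd (Finset.mem_univ i) h
  · intro i j hij
    rw [Matrix.mul_apply]
    refine Finset.sum_eq_zero fun k _ => ?_
    rcases lt_or_ge k i with h | h
    · rw [hu.2 i k h, zero_mul]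
    · rw [hv.2 k j (lt_of_lt_of_le hij h), mul_zero]

lemma IsUT.mul_nil {u y : Matrix (Fin n) (Fin n) F} (hu : IsUT u) (hy : y ∈ nil n F) :
    u * y ∈ nil n F := by
  intro i j hij
  rw [Matrix.mul_apply]
  refine Finset.sum_eq_zero fun k _ => ?_
  rcases lt_or_ge k i with h | h
  · rw [hu.2 i k h, zero_mul]
  · rw [hy k j (hij.trans h), mul_zero]

lemma IsUT.nil_mul {v y : Matrix (Fin n) (Fin n) F} (hv : IsUT v) (hy : y ∈ nil n F) :
    y * v ∈ nil n F := by
  intro i j hij
  rw [Matrix.mul_apply]
  refine Finset.sum_eq_zero fun k _ => ?_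
  rcases lt_or_ge j k with h | h
  · rw [hv.2 k j h, mul_zero]
  · rw [hy i k (h.trans hij), zero_mul]

lemma IsUT.sub_one {u : Matrix (Fin n) (Fin n) F} (hu : IsUT u) : u - 1 ∈ nil n F := by
  intro i j hij
  rcases hij.lt_or_eq with h | h
  · rw [Matrix.sub_apply, hu.2 i j h, Matrix.one_apply_ne (ne_of_gt h), sub_zero]
  · subst h
    rw [Matrix.sub_apply, hu.1, Matrix.one_apply_eq, sub_self]

lemma isUT_one_add {y : Matrix (Fin n) (Fin n) F} (hy : y ∈ nil n F) : IsUT (1 + y) := by
  constructor
  · intro i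
    rw [Matrix.add_apply, hy i i le_rfl, Matrix.one_apply_eq, add_zero]
  · intro i j h
    rw [Matrix.add_apply, hy i j h.le, Matrix.one_apply_ne (ne_of_gt h), add_zero]

lemma IsUT.det {u : Matrix (Fin n) (Fin n) F} (hu : IsUT u) : u.det = 1 := by
  rw [Matrix.det_of_upperTriangular]
  · exact Finset.prod_eq_one fun i _ => hu.1 i
  · intro i j h
    exact hu.2 i j h

end

/-- the group of upper unitriangular `n × n` matrices over the finite field `F` -/
def U (n : ℕ) (F : Type) [Field F] [Fintype F] : Subgroup (Matrix (Fin n) (Fin n) F)ˣ where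
  carrier := {u | (∀ i, (u : Matrix (Fin n) (Fin n) F) i i = 1) ∧
    ∀ i j, j < i → (u : Matrix (Fin n) (Fin n) F) i j = 0}
  mul_mem' := by
    intro a b ha hb
    exact IsUT.mul (u := (a : Matrix (Fin n) (Fin n) F)) ha hb
  one_mem' := IsUT.one
  inv_mem' := by
    intro u hu
    have hpow : ∀ k : ℕ, IsUT ((u ^ k : (Matrix (Fin n) (Fin n) F)ˣ) : Matrix (Fin n) (Fin n) F) := by
      intro k
      induction k with
      | zero => simpa using IsUT.one
      | succ k ih =>
        rw [pow_succ]
        exact IsUT.mul ih hu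
    have h1 : u⁻¹ = u ^ (orderOf u - 1) := by
      rw [inv_eq_iff_mul_eq_one, ← pow_succ', Nat.sub_add_cancel (orderOf_pos u)]
      exact pow_orderOf_eq_one u
    rw [h1]
    exact hpow _

variable {n : ℕ} {F : Type} [Field F] [Fintype F]

instance : Fintype (U n F) := Fintype.ofFinite _

instance : Fintype (nil n F) := Fintype.ofFinite _

/-- the underlying matrix -/
def mat (u : U n F) : Matrix (Fin n) (Fin n) F := ((u : (Matrix (Fin n) (Fin n) F)ˣ) : Matrix _ _ F)

lemma mat_mul (u v : U n F) : mat (u * v) = mat u * mat v := rfl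

lemma mat_one : mat (1 : U n F) = 1 := rfl

lemma mat_isUT (u : U n F) : IsUT (mat u) := u.2

lemma mat_inj {u v : U n F} (h : mat u = mat v) : u = v := by
  apply Subtype.ext
  exact Units.ext h

lemma mat_mul_inv (u : U n F) : mat u * mat u⁻¹ = 1 := by
  rw [← mat_mul, mul_inv_cancel, mat_one]

lemma mat_inv_mul (u : U n F) : mat u⁻¹ * mat u = 1 := by
  rw [← mat_mul, inv_mul_cancel, mat_one]

/-- the unitriangular matrix with given unitriangular value -/
def ofMat (m : Matrix (Fin n) (Fin n) F) (hm : IsUT m) : U n F :=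
  ⟨Matrix.nonsingInvUnit m (by rw [hm.det]; exact isUnit_one), hm⟩

lemma mat_ofMat (m : Matrix (Fin n) (Fin n) F) (hm : IsUT m) : mat (ofMat m hm) = m := rfl

/-- the two-sided action `y ↦ u y v` on strictly upper triangular matrices -/
def biact (u v : U n F) : nil n F →ₗ[F] nil n F where
  toFun y := ⟨mat u * (y : Matrix (Fin n) (Fin n) F) * mat v,
    IsUT.nil_mul (mat_isUT v) (IsUT.mul_nil (mat_isUT u) y.2)⟩
  map_add' := by
    intro a b
    apply Subtype.ext
    simp [mul_add, add_mul]
  map_smul' := by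
    intro c a
    apply Subtype.ext
    simp

lemma biact_coe (u v : U n F) (y : nil n F) :
    ((biact u v y : nil n F) : Matrix (Fin n) (Fin n) F) =
      mat u * (y : Matrix (Fin n) (Fin n) F) * mat v := rfl

/-- `g ↦ g - 1` -/
def subOne (g : U n F) : nil n F := ⟨mat g - 1, (mat_isUT g).sub_one⟩

/-- the unitriangular group as an algebra group -/
def uag (n : ℕ) (F : Type) [Field F] [Fintype F] : AG F (nil n F) (U n F) where
  s := {
    toFun := subOne
    invFun := fun y => ofMat (1 + (y : Matrix (Fin n) (Fin n) F)) (isUT_one_add y.2)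
    left_inv := by
      intro g
      apply mat_inj
      rw [mat_ofMat]
      simp [subOne]
    right_inv := by
      intro y
      apply Subtype.ext
      simp [subOne, mat_ofMat] }
  T := biact
  T_mul := by
    intro u v u' v' y
    apply Subtype.ext
    simp only [biact_coe, mat_mul, mul_assoc]
  T_one := by
    intro y
    apply Subtype.ext
    simp [biact_coe, mat_one]
  s_div := by
    intro g h
    apply Subtype.ext
    change mat (g * h⁻¹) - 1 = mat 1 * ((mat g - 1) - (mat h - 1)) * mat h⁻¹
    rw [mat_mul, mat_one, one_mul, sub_sub_sub_cancel_right, sub_mul, mat_mul_inv]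
  s_conj := by
    intro u g
    apply Subtype.ext
    change mat (u * g * u⁻¹) - 1 = mat u * (mat g - 1) * mat u⁻¹
    rw [mat_mul, mat_mul, mul_sub, sub_mul, mul_one, mat_mul_inv]

end Pool.Agent.X256.SC
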